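import Pool.Agent.LSP.Final

/-!
# Linear spaces on smooth complete intersections of two quadrics over number fields:
the Hasse principle for `r`-planes in `P^n`, `n ≥ 3r + 6`
-/

set_option autoImplicit false

namespace Pool.Agent.Results.MP_d4938b_nt.LinearSpaces

open NumberField IsDedekindDomain Matrix

/-- Let `k` be a number field, `r ≥ 0`, `n ≥ 3r + 6`, and let `Q 0`, `Q 1` be symmetric
`(n+1) × (n+1)` matrices over `k` such that `x^T (Q 0) x = x^T (Q 1) x = 0` defines a smooth
complete intersection `X` of two quadrics in `P^n`: at every nontrivial common zero `x` of the two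
forms over the algebraic closure of `k` the vectors `Q 0 x`, `Q 1 x` (half of the gradients) are
linearly independent. If over the completion of `k` at every finite place and at every infinite
place there is a linear subspace of dimension `r + 1` on which both forms vanish, that is, if `X`
contains an `r`-plane over every completion, then `X` contains an `r`-plane defined over `k`.
For `r = 0` this is the Hasse principle for `X` itself, `n ≥ 6`. -/
theorem result (r n : ℕ) (hn : 3 * r + 6 ≤ n) (k : Type) [Field k] [NumberField k]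
    (Q : Fin 2 → Matrix (Fin (n + 1)) (Fin (n + 1)) k) (hsymm : ∀ j, (Q j).IsSymm)
    (hsmooth : ∀ x : Fin (n + 1) → AlgebraicClosure k, x ≠ 0 →
      (∀ j, x ⬝ᵥ ((Q j).map (algebraMap k (AlgebraicClosure k)) *ᵥ x) = 0) →
      LinearIndependent (AlgebraicClosure k)
        (fun j => (Q j).map (algebraMap k (AlgebraicClosure k)) *ᵥ x))
    (hfin : ∀ v : HeightOneSpectrum (𝓞 k),
      ∃ W : Submodule (v.adicCompletion k) (Fin (n + 1) → v.adicCompletion k),
        Module.finrank (v.adicCompletion k) W = r + 1 ∧ ∀ x ∈ W, ∀ j,
          x ⬝ᵥ ((Q j).map (algebraMap k (v.adicCompletion k)) *ᵥ x) = 0)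
    (hinf : ∀ v : InfinitePlace k,
      ∃ W : Submodule v.Completion (Fin (n + 1) → v.Completion),
        Module.finrank v.Completion W = r + 1 ∧ ∀ x ∈ W, ∀ j,
          x ⬝ᵥ ((Q j).map (algebraMap k v.Completion) *ᵥ x) = 0) :
    ∃ W : Submodule k (Fin (n + 1) → k), Module.finrank k W = r + 1 ∧
      ∀ x ∈ W, ∀ j, x ⬝ᵥ (Q j *ᵥ x) = 0 :=
  LSP.final r n hn k Q hsymm hsmooth hfin hinf

end Pool.Agent.Results.MP_d4938b_nt.LinearSpaces
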