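import Mathlib
import Pool.Agent.NSV.AllJ
import Pool.Agent.NSV.FinJ

set_option autoImplicit false

namespace Pool.Agent.Results.MP_d4938b_nt.NormsInSubspaces

open NumberField IsDedekindDomain
open scoped TensorProduct

/-- Coordinates in `L` of a point: of the elements `x j`, `y j` of `F j ⊗ L`, with respect to a basis
of `F j` over `K` indexed by `ι j`, for all `j ∈ J`, and the coordinates `s` of `ξ = ∑ s k e k`. -/
abbrev Coordinates {J : Type} (ι : J → Type) (κ L : Type) : Type :=
  (∀ j, ι j → L) × (∀ j, ι j → L) × (κ → L)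

/-- The element of `F ⊗ L` with the coordinates `x` with respect to the basis `b` of `F` over `K`. -/
noncomputable def element (K : Type) {F : Type} [Field K] [Field F] [Algebra K F] {ι : Type}
    [Fintype ι] (b : ι → F) {L : Type} [Field L] [Algebra K L] (x : ι → L) : F ⊗[K] L :=
  ∑ i, b i ⊗ₜ[K] x i

/-- The norm from `M ⊗ L = (F ⊗ L) ⊗ M` to `F ⊗ L` of the element `∑ s k e k`, where
`K ⊆ F ⊆ M` are fields, `L` is an extension of `K`, the `e k` are in `M` and the `s k` in `L`. -/
noncomputable def norm (K : Type) {F M : Type} [Field K] [Field F] [Field M] [Algebra K F]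
    [Algebra F M] {κ : Type} [Fintype κ] (e : κ → M) {L : Type} [Field L] [Algebra K L]
    (s : κ → L) : F ⊗[K] L :=
  Algebra.norm (F ⊗[K] L)
    (∑ k, ((1 : F) ⊗ₜ[K] s k : F ⊗[K] L) ⊗ₜ[F] e k : (F ⊗[K] L) ⊗[F] M)

/-- The product over `i ∈ C` of the norms from `M i ⊗ L` to `F ⊗ L` of `ξ i = ∑ s k e k i`. -/
noncomputable def normProduct (K : Type) {F κ I : Type} {M : I → Type} [Field K] [Field F]
    [∀ i, Field (M i)] [Algebra K F] [∀ i, Algebra F (M i)] [Fintype κ] (e : κ → ∀ i, M i)
    (C : Finset I) {L : Type} [Field L] [Algebra K L] (s : κ → L) : F ⊗[K] L :=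
  ∏ i ∈ C, norm K (fun k => e k i) s

/-- The elements `x`, `y` of `F ⊗ L` and the coordinates `s` in `L` satisfy
`x ^ 2 - a y ^ 2 = c ∏ i, N_{M i/F}(ξ i)`, where `ξ i = ∑ s k e k i`, both sides being invertible in
`F ⊗ L`. -/
def Equation (K : Type) {F κ I : Type} {M : I → Type} [Field K] [Field F] [∀ i, Field (M i)]
    [Algebra K F] [∀ i, Algebra F (M i)] [Fintype κ] [Fintype I] (a c : F) (e : κ → ∀ i, M i)
    {L : Type} [Field L] [Algebra K L] (x y : F ⊗[K] L) (s : κ → L) : Prop :=
  IsUnit (x ^ 2 - (a ⊗ₜ[K] (1 : L)) * y ^ 2) ∧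
    x ^ 2 - (a ⊗ₜ[K] (1 : L)) * y ^ 2 = (c ⊗ₜ[K] (1 : L)) * normProduct K e Finset.univ s

/-- `P = (x, y, s)` is a point, with coordinates in the extension `L` of `K`, of the variety `X` over
`K` given by `x j ^ 2 - a j (y j) ^ 2 = c j ∏ i, N_{M j i/F j}(ξ j i) ≠ 0`, `x j, y j ∈ F j`, for all
`j`, where `ξ = ∑ s k e k`. -/
def IsPoint (K : Type) [Field K] {J κ : Type} [Fintype κ] {I : J → Type} [∀ j, Fintype (I j)]
    {F : J → Type} {M : ∀ j, I j → Type} [∀ j, Field (F j)] [∀ j i, Field (M j i)]
    [∀ j, Algebra K (F j)] [∀ j i, Algebra (F j) (M j i)] {ι : J → Type} [∀ j, Fintype (ι j)]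
    (a c : ∀ j, F j) (b : ∀ j, ι j → F j) (e : κ → ∀ j i, M j i) {L : Type} [Field L]
    [Algebra K L] (P : Coordinates ι κ L) : Prop :=
  ∀ j, Equation K (a j) (c j) (fun k => e k j) (element K (b j) (P.1 j))
    (element K (b j) (P.2.1 j)) P.2.2

/-- The coordinates of the point `P` over `K` are at distance less than `ε` from those of the point
`Q` over `L`. -/
def IsNear {K : Type} [Field K] {J : Type} {ι : J → Type} {κ : Type} {L : Type} [NormedField L]
    [Algebra K L] (ε : ℝ) (P : Coordinates ι κ K) (Q : Coordinates ι κ L) : Prop :=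
  (∀ j i, ‖algebraMap K L (P.1 j i) - Q.1 j i‖ < ε) ∧
    (∀ j i, ‖algebraMap K L (P.2.1 j i) - Q.2.1 j i‖ < ε) ∧
    ∀ k, ‖algebraMap K L (P.2.2 k) - Q.2.2 k‖ < ε

/-- Rank condition: for every nonempty finite set `T` of pairs `(j, i)` such that `a j` is not a square
in `M j i`, the projection of the subspace `V` spanned by the `e k` to the product of the `M j i`,
`(j, i) ∈ T`, has more than half of the dimension of this product. -/
def RankCondition (K : Type) [Field K] {J κ : Type} {I : J → Type} {F : J → Type}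
    {M : ∀ j, I j → Type} [∀ j, Field (F j)] [∀ j i, Field (M j i)]
    [∀ j i, Algebra (F j) (M j i)] [∀ j i, Algebra K (M j i)] (a : ∀ j, F j)
    (e : κ → ∀ j i, M j i) : Prop :=
  ∀ T : Finset (Σ j, I j), T.Nonempty →
    (∀ p ∈ T, ¬ IsSquare (algebraMap (F p.1) (M p.1 p.2) (a p.1))) →
    ∑ p ∈ T, Module.finrank K (M p.1 p.2) <
      2 * Set.finrank K (Set.range fun (k : κ) (p : {p // p ∈ T}) => e k p.1.1 p.1.2)

/-- `a ∈ F` is a square in the tensor product `M ⊗ M'` over `F`, that is, in every field which is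
generated over `F` by copies of `M` and `M'`. -/
def IsSquareInTensor {F : Type} [Field F] (M M' : Type) [Field M] [Field M'] [Algebra F M]
    [Algebra F M'] (a : F) : Prop :=
  IsSquare (algebraMap F (M ⊗[F] M') a)

/-- The set `C` of indices, neither empty nor everything, is closed: `a` is a square in `M i ⊗ M i'`
(tensor product over `F`) for all `i` in `C` and `i'` not in `C`. -/
def ClosedSubset {F I : Type} (M : I → Type) [Field F] [∀ i, Field (M i)] [∀ i, Algebra F (M i)]
    (a : F) (C : Finset I) : Prop :=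
  C.Nonempty ∧ (∃ i, i ∉ C) ∧ ∀ i ∈ C, ∀ i', i' ∉ C → IsSquareInTensor (M i) (M i') a

/-- The number of the maximal ideals `𝔪` of `F ⊗ L` such that `n` is not a norm from `F(√a)` modulo `𝔪`,
that is, not of the form `X ^ 2 - a Y ^ 2`. If `L` is the completion of `K` at the place `v` the maximal
ideals of `F ⊗ L` correspond to the places of `F` above `v`, the residue fields are the completions of
`F`, and the parity of this number is the invariant at `v` of the corestriction to `K` of the class of
the quaternion algebra `(a, n)`. -/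
noncomputable def nonNorms (K : Type) {F : Type} [Field K] [Field F] [Algebra K F] (a : F)
    {L : Type} [Field L] [Algebra K L] (n : F ⊗[K] L) : ℕ :=
  {𝔪 : MaximalSpectrum (F ⊗[K] L) |
    ¬ ∃ X Y : F ⊗[K] L, X ^ 2 - (a ⊗ₜ[K] (1 : L)) * Y ^ 2 - n ∈ 𝔪.asIdeal}.ncard

/-- The sum over all places `v` of `K` of the local invariants of the corestriction to `K` of the class of
the quaternion algebra `(a, n)`, `n = n v` in `F ⊗ L`, `L` the completion of `K` at `v`, is zero (it is an
element of `(1/2)ℤ/ℤ`; `n v` for the finite places, `m v` for the infinite ones). -/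
def InvariantSumZero (K : Type) {F : Type} [Field K] [NumberField K] [Field F] [Algebra K F] (a : F)
    (n : (v : HeightOneSpectrum (𝓞 K)) → F ⊗[K] v.adicCompletion K)
    (m : (v : InfinitePlace K) → F ⊗[K] v.Completion) : Prop :=
  Even (∑ᶠ v : HeightOneSpectrum (𝓞 K), nonNorms K a (n v) +
    ∑ v : InfinitePlace K, nonNorms K a (m v))

/-- Let `K` be a number field, `J` a finite set, for `j ∈ J` let `F j` be an extension of `K`, `a j`
and `c j` nonzero elements of `F j`, and `M j` the product of the finite extensions `M j i` of `F j`,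
`i ∈ I j`, a finite set. Let `V` be the `K`-subspace of the product of the `M j` spanned by the `e k`,
satisfying the rank condition. Let `X` be the variety over `K` given by
`x j ^ 2 - a j (y j) ^ 2 = c j N_{M j/F j}(ξ j) ≠ 0`, `x j, y j ∈ F j`, for all `j`, `ξ ∈ V`. Consider
a family of points of `X` over all completions of `K` such that for all `j` and all closed subsets `C` of
`I j` the sum of the local invariants of the corestriction to `K` of the class of the quaternion algebra
`(a j, ∏_{i ∈ C} N_{M j i/F j}(ξ j i))` is zero. Then `X` has points over `K` arbitrarily near to the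
points of the family at the places in any finite set (here: at all infinite places and the finite places
in `T`). -/
theorem result (K : Type) [Field K] [NumberField K] {J κ : Type} [Fintype J] [Fintype κ]
    {I : J → Type} [∀ j, Fintype (I j)] {F : J → Type} {M : ∀ j, I j → Type}
    [∀ j, Field (F j)] [∀ j, NumberField (F j)] [∀ j i, Field (M j i)]
    [∀ j i, NumberField (M j i)] [∀ j, Algebra K (F j)] [∀ j i, Algebra (F j) (M j i)]
    [∀ j i, Algebra K (M j i)] [∀ j i, IsScalarTower K (F j) (M j i)] {ι : J → Type}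
    [∀ j, Fintype (ι j)] (a c : ∀ j, F j) (ha : ∀ j, a j ≠ 0) (hc : ∀ j, c j ≠ 0)
    (b : ∀ j, Module.Basis (ι j) K (F j)) (e : κ → ∀ j i, M j i) (he : RankCondition K a e)
    (z : (v : HeightOneSpectrum (𝓞 K)) → Coordinates ι κ (v.adicCompletion K))
    (w : (v : InfinitePlace K) → Coordinates ι κ v.Completion)
    (hz : ∀ v, IsPoint K a c (fun j => b j) e (z v)) (hw : ∀ v, IsPoint K a c (fun j => b j) e (w v))
    (hBM : ∀ (j : J) (C : Finset (I j)), ClosedSubset (M j) (a j) C →
      InvariantSumZero K (a j) (fun v => normProduct K (fun k => e k j) C (z v).2.2)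
        (fun v => normProduct K (fun k => e k j) C (w v).2.2))
    (T : Finset (HeightOneSpectrum (𝓞 K))) (ε : ℝ) (hε : 0 < ε) :
    ∃ P : Coordinates ι κ K, IsPoint K a c (fun j => b j) e P ∧ (∀ v ∈ T, IsNear ε P (z v)) ∧
      ∀ v, IsNear ε P (w v) := by
  obtain ⟨x', y', s', h1, h2, h3⟩ := Pool.Agent.NSV.finJ_main Pool.Agent.NSV.st_E0
    (Pool.Agent.NSV.thm_I4 Pool.Agent.NSV.st_E0) Pool.Agent.NSV.all_I6 Pool.Agent.NSV.all_J18
    Pool.Agent.NSV.all_J17 K a c ha hc b e he (fun v => (z v).1) (fun v => (z v).2.1)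
    (fun v => (z v).2.2) (fun v => (w v).1) (fun v => (w v).2.1) (fun v => (w v).2.2) hz hw
    (fun j C h1 h2 h3 => hBM j C ⟨h1, h2, h3⟩) T ε hε
  exact ⟨(x', y', s'), h1, fun v hv => ⟨fun j i => ((h2 v hv).1 j i).1,
    fun j i => ((h2 v hv).1 j i).2, (h2 v hv).2⟩,
    fun v => ⟨fun j i => ((h3 v).1 j i).1, fun j i => ((h3 v).1 j i).2, (h3 v).2⟩⟩

end Pool.Agent.Results.MP_d4938b_nt.NormsInSubspaces
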