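import Mathlib
import Pool.Agent.HPW.Main

set_option autoImplicit false

namespace Pool.Agent.Results.MP_d4938b_nt.PowerFano

open MvPolynomial NumberField IsDedekindDomain

/-- The systems of `R` forms in `m` groups of variables, where the group `b` consists of `n b + 1`
variables (the homogeneous coordinates of the projective space of dimension `n b`), and the form with
number `i` is homogeneous of degree `D i b` in the variables of the group `b` for every `b`.  The
coefficients are algebraic integers of the number field `K`, all conjugates of which have absolute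
value at most `H`. -/
def systems (K : Type) [Field K] {R m : ℕ} (n : Fin m → ℕ) (D : Fin R → Fin m → ℕ) (H : ℕ) :
    Set (Fin R → MvPolynomial (Σ b : Fin m, Fin (n b + 1)) (𝓞 K)) :=
  {F | ∀ i, (∀ e, (F i).coeff e ≠ 0 → ∀ b, ∑ l : Fin (n b + 1), e ⟨b, l⟩ = D i b) ∧
    ∀ e, ∀ σ : K →+* ℂ, ‖σ (((F i).coeff e : 𝓞 K) : K)‖ ≤ H}

/-- The value at the point `x` with coordinates in the extension `L` of `K` of a polynomial with
coefficients in the ring of integers of `K`. -/
noncomputable def value {K : Type} [Field K] {m : ℕ} {n : Fin m → ℕ} {L : Type} [Field L]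
    [Algebra K L] (x : (Σ b : Fin m, Fin (n b + 1)) → L)
    (f : MvPolynomial (Σ b : Fin m, Fin (n b + 1)) (𝓞 K)) : L :=
  eval₂ ((algebraMap K L).comp (algebraMap (𝓞 K) K)) x f

/-- The closed subscheme `F = 0` of the product of the projective spaces of dimensions `n b` over `K`
satisfies the Jacobian criterion: at every point over the algebraic closure of `K` the gradients of
the `R` forms are linearly independent. -/
def IsSmooth {K : Type} [Field K] {R m : ℕ} {n : Fin m → ℕ}
    (F : Fin R → MvPolynomial (Σ b : Fin m, Fin (n b + 1)) (𝓞 K)) : Prop :=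
  ∀ x : (Σ b : Fin m, Fin (n b + 1)) → AlgebraicClosure K, (∀ b, ∃ l, x ⟨b, l⟩ ≠ 0) →
    (∀ i, value x (F i) = 0) →
    LinearIndependent (AlgebraicClosure K) fun i : Fin R => fun t : (Σ b : Fin m, Fin (n b + 1)) =>
      value x (pderiv t (F i))

/-- `x` is a point of the closed subscheme `F = 0` of the product of projective spaces, with
coordinates in the extension `L` of `K`. -/
def IsPoint {K : Type} [Field K] {R m : ℕ} {n : Fin m → ℕ}
    (F : Fin R → MvPolynomial (Σ b : Fin m, Fin (n b + 1)) (𝓞 K))
    {L : Type} [Field L] [Algebra K L] (x : (Σ b : Fin m, Fin (n b + 1)) → L) : Prop :=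
  (∀ b, ∃ l, x ⟨b, l⟩ ≠ 0) ∧ ∀ i, value x (F i) = 0

/-- The closed subscheme `F = 0` of the product of projective spaces has a point with coordinates in
the extension `L` of `K`. -/
def HasPoint {K : Type} [Field K] {R m : ℕ} {n : Fin m → ℕ}
    (F : Fin R → MvPolynomial (Σ b : Fin m, Fin (n b + 1)) (𝓞 K))
    (L : Type) [Field L] [Algebra K L] : Prop :=
  ∃ x : (Σ b : Fin m, Fin (n b + 1)) → L, IsPoint F x

/-- `F = 0` has points over all completions of the number field `K`. -/
def HasLocalPoints {K : Type} [Field K] [NumberField K] {R m : ℕ} {n : Fin m → ℕ}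
    (F : Fin R → MvPolynomial (Σ b : Fin m, Fin (n b + 1)) (𝓞 K)) : Prop :=
  (∀ v : InfinitePlace K, HasPoint F v.Completion) ∧
    ∀ v : HeightOneSpectrum (𝓞 K), HasPoint F (v.adicCompletion K)

/-- The points `x` and `y` of the product of projective spaces over `L` are `η`-close: in every group
the coordinates of `x`, multiplied by some `t`, differ from those of `y` by at most `η` times the
largest absolute value of the coordinates of `y` in this group. -/
def IsClose {m : ℕ} {n : Fin m → ℕ} {L : Type} [NormedField L] (η : ℝ)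
    (x y : (Σ b : Fin m, Fin (n b + 1)) → L) : Prop :=
  ∀ b, ∃ t : L, ∀ l, ‖t * x ⟨b, l⟩ - y ⟨b, l⟩‖ ≤ η * ‖fun l' : Fin (n b + 1) => y ⟨b, l'⟩‖

/-- The points of `F = 0` over the completions of `K` at the finite places in `S` and at all infinite
places are `η`-close to small points over `K`: for any points `z v`, `y v` over these completions there
is a point `x` of `F = 0` which is `η`-close to all of them and whose coordinates are algebraic integers
of `K` such that in every group `b` they generate the unit ideal and all their conjugates have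
absolute value at most `B b`. -/
def HasSmallPoints {K : Type} [Field K] [NumberField K] {R m : ℕ} {n : Fin m → ℕ}
    (S : Finset (HeightOneSpectrum (𝓞 K))) (η : ℝ) (B : Fin m → ℝ)
    (F : Fin R → MvPolynomial (Σ b : Fin m, Fin (n b + 1)) (𝓞 K)) : Prop :=
  ∀ (z : (v : HeightOneSpectrum (𝓞 K)) → (Σ b : Fin m, Fin (n b + 1)) → v.adicCompletion K)
    (y : (v : InfinitePlace K) → (Σ b : Fin m, Fin (n b + 1)) → v.Completion),
    (∀ v ∈ S, IsPoint F (z v)) → (∀ v, IsPoint F (y v)) →
    ∃ x : (Σ b : Fin m, Fin (n b + 1)) → 𝓞 K,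
      (∀ b, Ideal.span (Set.range fun l : Fin (n b + 1) => x ⟨b, l⟩) = ⊤) ∧
      (∀ i, eval x (F i) = 0) ∧
      (∀ b (l : Fin (n b + 1)), ∀ σ : K →+* ℂ, ‖σ ((x ⟨b, l⟩ : 𝓞 K) : K)‖ ≤ B b) ∧
      (∀ v ∈ S, IsClose η (fun t => algebraMap K (v.adicCompletion K) (x t : K)) (z v)) ∧
      ∀ v, IsClose η (fun t => algebraMap K v.Completion (x t : K)) (y v)

/-- The Hasse principle and quantitative weak approximation by small points, outside a power saving
proportion of the complete intersections of `R ≥ 1` forms in a product of projective spaces of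
dimensions `n b ≥ 1` over a number field `K`, of dimension at least two, if all degrees `D i b` are
positive and the complete intersections are Fano of degrees `D i a ≥ 2` with respect to one factor `a`:
`∑ i, D i a ≤ n a`.  Order the systems of forms of the multidegrees `D i` over the ring of integers of
`K` by the size `H` of their coefficients.  The smooth `F = 0` with points over all completions of `K`
are a positive proportion, and for every finite set `S` of finite places and every `ε > 0` there is
`δ > 0` such that, outside a set of proportion `O(H ^ (-δ))`, all `F = 0` with points over all completions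
are smooth and all their points over the completions at the places in `S` and at all infinite places
are `H ^ (-δ)`-close to one point over `K`, with coordinates which are coprime algebraic integers of size
at most `H ^ (R / (n a + 1 - ∑ i, D i a) + ε)` in the factor `a` and `H ^ ε` in the other factors. -/
theorem result (K : Type) [Field K] [NumberField K] (R m : ℕ) (n : Fin m → ℕ)
    (D : Fin R → Fin m → ℕ) (a : Fin m) (hR : 1 ≤ R) (hn : ∀ b, 1 ≤ n b) (hD : ∀ i b, 1 ≤ D i b)
    (hd : ∀ i, 2 ≤ D i a) (hF : ∑ i, D i a ≤ n a) (hdim : R + 2 ≤ ∑ b, n b) :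
    (∃ c : ℝ, 0 < c ∧ ∀ᶠ H : ℕ in Filter.atTop, c * ((systems K n D H).ncard : ℝ) ≤
      ({F ∈ systems K n D H | IsSmooth F ∧ HasLocalPoints F}.ncard : ℝ)) ∧
    ∀ (S : Finset (HeightOneSpectrum (𝓞 K))) (ε : ℝ), 0 < ε →
      ∃ δ C : ℝ, 0 < δ ∧ 0 < C ∧ ∀ H : ℕ, 1 ≤ H →
        ({F ∈ systems K n D H | ¬ (HasLocalPoints F → IsSmooth F ∧
          HasSmallPoints S ((H : ℝ) ^ (-δ)) (fun b => (H : ℝ) ^ (if b = a then
            (R : ℝ) / ((n a + 1 - ∑ i, D i a : ℕ) : ℝ) + ε else ε)) F)}.ncard : ℝ) ≤
          C * (H : ℝ) ^ (-δ) * ((systems K n D H).ncard : ℝ) :=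
  ⟨(Pool.Agent.RHW.main_polyW K (Fin m) R n D a hR hn hD hd hF hdim).1, fun S ε hε =>
    Pool.Agent.HPW.main_P0 K (Fin m) R n D a hR hn hD hd hF hdim S ε hε _
      (if_pos rfl) fun _ hb => if_neg hb⟩

end Pool.Agent.Results.MP_d4938b_nt.PowerFano
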