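import Pool.Agent.FMM.Expl
import Pool.Agent.FMM.Final3

/-!
# The Hasse principle for smooth complete intersections of `R` divisors of bidegrees `(d_j, 2)` in
`P^m × P^(N-1)` over number fields, `R = 2, 3, 4`
-/

set_option autoImplicit false

namespace Pool.Agent.Results.MP_d4938b_nt.QuadricFamilies

open NumberField IsDedekindDomain Matrix

/-- Let `k` be a number field, let `R = 2` and `N ≥ 7`, or `R = 3` and `N ≥ 15`, or `R = 4` and
`N ≥ 28`, and let `m ≥ 1`. Let `d 0, ..., d (R-1) ≥ 0` be arbitrary integers, let `A j`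
be symmetric `N × N` matrices whose entries are forms of degree `d j` over `k` in
`t = (t_0, ..., t_m)` (or zero), and
`F_j(t; x) = ∑ a, ∑ b, (A j)_ab(t) x_a x_b`,
a form of bidegree `(d j, 2)` in `t` and `x = (x_1, ..., x_N)`. Suppose that the `R` forms `F_j`
define a smooth complete intersection in `P^m × P^(N-1)`: at every common zero `(t, x)`,
`t ≠ 0`, `x ≠ 0`, of the `R` forms over the algebraic closure of `k`, the vectors
`(∂F_j/∂t_0, ..., ∂F_j/∂t_m, (1/2) ∂F_j/∂x)` are linearly independent. If the `R` forms have a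
common zero `(t, x)`, `t ≠ 0`, `x ≠ 0`, over the completion of `k` at every finite place and at every
infinite place, then they have such a common zero over `k`. (`m = 1` and all `d j = 0` is the case of
smooth complete intersections of `R` quadrics in `P^(N-1)`, times `P^1`.) -/
theorem result (R N m : ℕ) (hRN : (R = 2 ∧ 7 ≤ N) ∨ (R = 3 ∧ 15 ≤ N) ∨ (R = 4 ∧ 28 ≤ N))
    (hm : 1 ≤ m) (k : Type) [Field k] [NumberField k]
    (d : Fin R → ℕ) (A : Fin R → Matrix (Fin N) (Fin N) (MvPolynomial (Fin (m + 1)) k))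
    (hsymm : ∀ j, (A j).IsSymm) (hhom : ∀ j a b, (A j a b).IsHomogeneous (d j))
    (hsmooth : ∀ (t : Fin (m + 1) → AlgebraicClosure k) (x : Fin N → AlgebraicClosure k),
      t ≠ 0 → x ≠ 0 →
      (∀ j, ∑ a, ∑ b, MvPolynomial.aeval t (A j a b) * x a * x b = 0) →
      LinearIndependent (AlgebraicClosure k) (fun j =>
        ((fun i => ∑ a, ∑ b, MvPolynomial.aeval t (MvPolynomial.pderiv i (A j a b)) * x a * x b,
          fun a => ∑ b, MvPolynomial.aeval t (A j a b) * x b) :
          (Fin (m + 1) → AlgebraicClosure k) × (Fin N → AlgebraicClosure k))))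
    (hfin : ∀ v : HeightOneSpectrum (𝓞 k), ∃ (t : Fin (m + 1) → v.adicCompletion k)
      (x : Fin N → v.adicCompletion k), t ≠ 0 ∧ x ≠ 0 ∧
      ∀ j, ∑ a, ∑ b, MvPolynomial.aeval t (A j a b) * x a * x b = 0)
    (hinf : ∀ v : InfinitePlace k, ∃ (t : Fin (m + 1) → v.Completion) (x : Fin N → v.Completion),
      t ≠ 0 ∧ x ≠ 0 ∧ ∀ j, ∑ a, ∑ b, MvPolynomial.aeval t (A j a b) * x a * x b = 0) :
    ∃ (t : Fin (m + 1) → k) (x : Fin N → k), t ≠ 0 ∧ x ≠ 0 ∧
      ∀ j, ∑ a, ∑ b, MvPolynomial.eval t (A j a b) * x a * x b = 0 :=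
  FMM.expl R N (m + 1) (FMM.fin_HPM3 R N m hRN hm) k d A hsymm hhom hsmooth hfin hinf

end Pool.Agent.Results.MP_d4938b_nt.QuadricFamilies
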